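import Pool.Agent.helper65.GD.Spec

/-!
# MP_ea335c_an, row gdm:PAA
-/

set_option autoImplicit false

namespace Pool.Agent.GD

open Finset Metric Filter Topology

theorem PAA_cc (s : ℝ) (n : ℕ) : (n : ℝ) * cc s n = s * ∑ m ∈ range n, cc s m := by
  induction n with
  | zero => simp
  | succ n ih =>
    have h1 : cc s (n + 1) = cc s n * ((s + n) / (n + 1)) := by
      unfold cc
      rw [Finset.prod_range_succ]
    have h2 : ((n : ℝ) + 1) ≠ 0 := by positivity
    rw [Finset.sum_range_succ, mul_add, ← ih, h1]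
    push_cast
    field_simp
    ring

/-- the series `∑_{m ≥ 1} x^m z^m` -/
noncomputable def PAA_E (x : ℂ) : PowerSeries ℂ := PowerSeries.mk fun n => if n = 0 then 0 else x ^ n

theorem PAA_coeff (x : ℂ) (F : PowerSeries ℂ) (k : ℕ) :
    PowerSeries.coeff k (F * PAA_E x) = ∑ m ∈ range k, PowerSeries.coeff m F * x ^ (k - m) := by
  rw [PowerSeries.coeff_mul,
    Finset.Nat.sum_antidiagonal_eq_sum_range_succ
      (fun i j => PowerSeries.coeff i F * PowerSeries.coeff j (PAA_E x)) k,
    Finset.sum_range_succ]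
  have h1 : PowerSeries.coeff (k - k) (PAA_E x) = 0 := by
    simp [PAA_E]
  rw [h1, mul_zero, add_zero]
  apply Finset.sum_congr rfl
  intro m hm
  have h2 : k - m ≠ 0 := by
    have := Finset.mem_range.1 hm
    omega
  simp [PAA_E, h2]

theorem PAA : PAA_stmt := by
  intro N s x l k
  set c : Fin N → ℕ → ℂ := fun l' n => (cc (s l') n : ℂ) * x l' ^ n with hc
  have hA : ∀ a : Fin N →₀ ℕ, (wt s a : ℂ) * mon x a = ∏ l', c l' (a l') := by
    intro a
    simp only [wt, mon, hc, Finset.prod_mul_distrib]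
    push_cast
    rfl
  set A : Fin N → PowerSeries ℂ := fun l' => PowerSeries.mk (c l') with hAdef
  have hG : ∀ m, ∑ a ∈ ix N m, (wt s a : ℂ) * mon x a = PowerSeries.coeff m (∏ l', A l') := by
    intro m
    rw [PowerSeries.coeff_prod]
    apply Finset.sum_congr rfl
    intro a _
    rw [hA]
    apply Finset.prod_congr rfl
    intro l' _
    simp [hAdef]
  set B : Fin N → PowerSeries ℂ :=
    Function.update A l (PowerSeries.mk fun n => (n : ℂ) * c l n) with hB
  have hBl : B l = PowerSeries.mk fun n => (n : ℂ) * c l n := by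
    simp [hB]
  have hBn : ∀ l', l' ≠ l → B l' = A l' := by
    intro l' h
    simp [hB, Function.update_of_ne h]
  have hL : ∑ a ∈ ix N k, (wt s a : ℂ) * (a l : ℂ) * mon x a =
      PowerSeries.coeff k (∏ l', B l') := by
    rw [PowerSeries.coeff_prod]
    apply Finset.sum_congr rfl
    intro a _
    have h1 : (wt s a : ℂ) * (a l : ℂ) * mon x a = (a l : ℂ) * ((wt s a : ℂ) * mon x a) := by ring
    rw [h1, hA, ← Finset.mul_prod_erase univ (fun l' => c l' (a l')) (Finset.mem_univ l),
      ← Finset.mul_prod_erase univ (fun l' => PowerSeries.coeff (a l') (B l')) (Finset.mem_univ l)]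
    have h2 : ∏ l' ∈ univ.erase l, PowerSeries.coeff (a l') (B l') =
        ∏ l' ∈ univ.erase l, c l' (a l') := by
      apply Finset.prod_congr rfl
      intro l' hl'
      rw [hBn l' (Finset.ne_of_mem_erase hl')]
      simp [hAdef]
    simp only [h2, hBl, PowerSeries.coeff_mk]
    ring
  have hBA : B l = PowerSeries.C (s l : ℂ) * (A l * PAA_E (x l)) := by
    ext n
    rw [PowerSeries.coeff_C_mul, PAA_coeff, hBl, PowerSeries.coeff_mk]
    have h1 := PAA_cc (s l) n
    have h2 : (n : ℂ) * (cc (s l) n : ℂ) = (s l : ℂ) * ∑ m ∈ range n, (cc (s l) m : ℂ) := by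
      exact_mod_cast h1
    have h3 : (n : ℂ) * c l n = ((n : ℂ) * (cc (s l) n : ℂ)) * x l ^ n := by
      simp only [hc]
      ring
    rw [h3, h2, mul_assoc, Finset.sum_mul]
    congr 1
    apply Finset.sum_congr rfl
    intro m hm
    have h4 : m + (n - m) = n := by
      have := Finset.mem_range.1 hm
      omega
    simp only [hAdef, PowerSeries.coeff_mk, hc]
    rw [mul_assoc, ← pow_add, h4]
  have hprod : ∏ l', B l' = PowerSeries.C (s l : ℂ) * ((∏ l', A l') * PAA_E (x l)) := by
    rw [← Finset.mul_prod_erase univ B (Finset.mem_univ l),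
      ← Finset.mul_prod_erase univ A (Finset.mem_univ l), hBA]
    have h2 : ∏ l' ∈ univ.erase l, B l' = ∏ l' ∈ univ.erase l, A l' :=
      Finset.prod_congr rfl (fun l' hl' => hBn l' (Finset.ne_of_mem_erase hl'))
    rw [h2]
    ring
  rw [hL, hprod, PowerSeries.coeff_C_mul, PAA_coeff]
  congr 1
  apply Finset.sum_congr rfl
  intro m _
  rw [hG m, mul_comm]

end Pool.Agent.GD
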